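import Pool.Agent.Lib.HS32.EKit

/-! The average over the circle of an entire function is its linear part. -/

open scoped Classical Topology ContDiff Real
open Set MeasureTheory Complex Metric Filter

noncomputable section

namespace Pool.Agent.Lib.PM81

open Pool.Agent.Lib.SV (E)

variable {n : ℕ}

theorem mp_smul {c : ℂ} (hc : ‖c‖ = 1) :
    MeasurePreserving (fun v : E n => c • v) volume volume :=
  volume_preserving_pi (f := fun (_ : Fin n) (x : ℂ) => c * x) fun _ =>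
    (rotation (⟨c, mem_sphere_zero_iff_norm.2 hc⟩ : Circle)).measurePreserving

theorem sq_int_le {g : ℝ → ℂ} (hg : Continuous g) :
    ‖∫ θ in (0 : ℝ)..2 * π, g θ‖ ^ 2 ≤ 2 * π * ∫ θ in (0 : ℝ)..2 * π, ‖g θ‖ ^ 2 := by
  have hp : 0 < 2 * π := by positivity
  have h1 := intervalIntegral.norm_integral_le_integral_norm (f := g) (μ := volume) hp.le
  set A := ∫ θ in (0 : ℝ)..2 * π, ‖g θ‖ with hA
  have h2 : 0 ≤ ∫ θ in (0 : ℝ)..2 * π, (‖g θ‖ - A / (2 * π)) ^ 2 :=
    intervalIntegral.integral_nonneg hp.le fun _ _ => sq_nonneg _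
  have e : ∀ θ, (‖g θ‖ - A / (2 * π)) ^ 2 =
      ‖g θ‖ ^ 2 - 2 * (A / (2 * π)) * ‖g θ‖ + (A / (2 * π)) ^ 2 := fun θ => by ring
  simp only [e] at h2
  have c1 : Continuous fun θ => ‖g θ‖ ^ 2 := by fun_prop
  have c2 : Continuous fun θ => 2 * (A / (2 * π)) * ‖g θ‖ := by fun_prop
  have c3 : Continuous fun θ => ‖g θ‖ ^ 2 - 2 * (A / (2 * π)) * ‖g θ‖ := c1.sub c2
  rw [intervalIntegral.integral_add (c3.intervalIntegrable _ _)
      (continuous_const.intervalIntegrable _ _),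
    intervalIntegral.integral_sub (c1.intervalIntegrable _ _) (c2.intervalIntegrable _ _),
    intervalIntegral.integral_const_mul, intervalIntegral.integral_const, ← hA, sub_zero,
    smul_eq_mul] at h2
  have h3 : 2 * (A / (2 * π)) * A - 2 * π * (A / (2 * π)) ^ 2 = A ^ 2 / (2 * π) := by
    field_simp; ring
  have h4 : A ^ 2 / (2 * π) ≤ ∫ θ in (0 : ℝ)..2 * π, ‖g θ‖ ^ 2 := by linarith
  rw [div_le_iff₀' hp] at h4
  exact (pow_le_pow_left₀ (norm_nonneg _) h1 2).trans h4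

theorem lin_part {f : E n → ℂ} (hf : Differentiable ℂ f) (v : E n) :
    ∫ θ in (0 : ℝ)..2 * π, (circleMap 0 1 θ)⁻¹ * f (circleMap 0 1 θ • v) =
      2 * π * fderiv ℂ f 0 v := by
  have h0 : ∀ s : ℂ, HasDerivAt (fun s : ℂ => s • v) v s := fun s => by
    simpa using (hasDerivAt_id s).smul_const v
  have h1 : Differentiable ℂ fun s : ℂ => f (s • v) := fun s =>
    (hf _).comp s (h0 s).differentiableAt
  have h2 : deriv (fun s : ℂ => f (s • v)) 0 = fderiv ℂ f 0 v := by
    have := (hf ((0 : ℂ) • v)).hasFDerivAt.comp_hasDerivAt (0 : ℂ) (h0 0)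
    rw [zero_smul] at this
    exact this.deriv
  have h3 := two_pi_I_inv_smul_circleIntegral_sub_sq_inv_smul_of_differentiable (c := 0) (R := 1)
    (w₀ := 0) isOpen_univ (subset_univ _) h1.differentiableOn (mem_ball_self one_pos)
  rw [h2, circleIntegral] at h3
  have h4 : ∀ θ : ℝ, deriv (circleMap 0 1) θ • ((circleMap 0 1 θ - 0) ^ 2)⁻¹ •
      f (circleMap 0 1 θ • v) = I * ((circleMap 0 1 θ)⁻¹ * f (circleMap 0 1 θ • v)) := fun θ => by
    have := circleMap_ne_center (c := 0) (θ := θ) one_ne_zero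
    rw [deriv_circleMap, sub_zero, smul_eq_mul, smul_eq_mul]
    field_simp
  simp only [h4] at h3
  rw [intervalIntegral.integral_const_mul, smul_eq_mul] at h3
  rw [← h3]
  have : (π : ℂ) ≠ 0 := ofReal_ne_zero.2 Real.pi_ne_zero
  field_simp

theorem avg_lin {G f : E n → ℂ} {W : E n → ℝ} (hG : Continuous G) (hW : Continuous W)
    (W0 : ∀ v, 0 ≤ W v) (hGc : ∀ c : ℂ, ‖c‖ = 1 → ∀ v, G (c • v) = c * G v)
    (hWc : ∀ c : ℂ, ‖c‖ = 1 → ∀ v, W (c • v) = W v) (hf : Differentiable ℂ f) :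
    ∫⁻ v, ENNReal.ofReal (‖G v - fderiv ℂ f 0 v‖ ^ 2 * W v) ≤
      ∫⁻ v, ENNReal.ofReal (‖G v - f v‖ ^ 2 * W v) := by
  have hp : 0 < 2 * π := by positivity
  have hc : ∀ θ, ‖circleMap 0 1 θ‖ = 1 := fun θ => by simp
  have hc0 : ∀ θ, circleMap 0 1 θ ≠ 0 := fun θ => circleMap_ne_center one_ne_zero
  have cc : Continuous (circleMap 0 1) := continuous_circleMap 0 1
  set q : E n → ℝ := fun v => ‖G v - f v‖ ^ 2 * W v with hq
  have qc : Continuous q := ((hG.sub hf.continuous).norm.pow 2).mul hW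
  have q0 : ∀ v, 0 ≤ q v := fun v => mul_nonneg (sq_nonneg _) (W0 v)
  have h1 : ∀ v, 2 * π * (‖G v - fderiv ℂ f 0 v‖ ^ 2 * W v) ≤
      ∫ θ in (0 : ℝ)..2 * π, q (circleMap 0 1 θ • v) := fun v => by
    have c1 : Continuous fun θ => (circleMap 0 1 θ)⁻¹ * f (circleMap 0 1 θ • v) :=
      (cc.inv₀ hc0).mul (hf.continuous.comp (cc.smul continuous_const))
    have h2 := sq_int_le (g := fun θ => G v - (circleMap 0 1 θ)⁻¹ * f (circleMap 0 1 θ • v))
      (continuous_const.sub c1)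
    rw [intervalIntegral.integral_sub (continuous_const.intervalIntegrable _ _)
      (c1.intervalIntegrable _ _), lin_part hf, intervalIntegral.integral_const, sub_zero,
      real_smul] at h2
    have h3 : ∀ θ, q (circleMap 0 1 θ • v) =
        W v * ‖G v - (circleMap 0 1 θ)⁻¹ * f (circleMap 0 1 θ • v)‖ ^ 2 := fun θ => by
      have : G (circleMap 0 1 θ • v) - f (circleMap 0 1 θ • v) = circleMap 0 1 θ *
          (G v - (circleMap 0 1 θ)⁻¹ * f (circleMap 0 1 θ • v)) := by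
        rw [hGc _ (hc θ), mul_sub, mul_inv_cancel_left₀ (hc0 θ)]
      simp only [hq]
      rw [this, norm_mul, hc, one_mul, hWc _ (hc θ), mul_comm]
    simp only [h3]
    rw [intervalIntegral.integral_const_mul]
    have h4 : ((2 * π : ℝ) : ℂ) * G v - 2 * π * fderiv ℂ f 0 v =
        ((2 * π : ℝ) : ℂ) * (G v - fderiv ℂ f 0 v) := by push_cast; ring
    rw [h4, norm_mul, norm_real, Real.norm_of_nonneg hp.le, mul_pow, sq (2 * π), mul_assoc] at h2
    have h5 := mul_le_mul_of_nonneg_left (le_of_mul_le_mul_left h2 hp) (W0 v)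
    linarith
  have jc : Continuous fun p : E n × ℝ => q (circleMap 0 1 p.2 • p.1) :=
    qc.comp ((cc.comp continuous_snd).smul continuous_fst)
  have h6 : ENNReal.ofReal (2 * π) * ∫⁻ v, ENNReal.ofReal (‖G v - fderiv ℂ f 0 v‖ ^ 2 * W v) ≤
      ENNReal.ofReal (2 * π) * ∫⁻ v, ENNReal.ofReal (q v) := by
    calc _ = ∫⁻ v, ENNReal.ofReal (2 * π * (‖G v - fderiv ℂ f 0 v‖ ^ 2 * W v)) := by
          rw [← lintegral_const_mul' _ _ ENNReal.ofReal_ne_top]
          simp only [ENNReal.ofReal_mul hp.le]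
      _ ≤ ∫⁻ v, ∫⁻ θ in Ioc 0 (2 * π), ENNReal.ofReal (q (circleMap 0 1 θ • v)) := by
          refine lintegral_mono fun v => (ENNReal.ofReal_le_ofReal (h1 v)).trans_eq ?_
          rw [intervalIntegral.integral_of_le hp.le]
          exact ofReal_integral_eq_lintegral_ofReal
            ((qc.comp (cc.smul continuous_const)).integrableOn_Icc.mono_set Ioc_subset_Icc_self)
            (Eventually.of_forall fun θ => q0 _)
      _ = ∫⁻ θ in Ioc 0 (2 * π), ∫⁻ v, ENNReal.ofReal (q (circleMap 0 1 θ • v)) :=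
          lintegral_lintegral_swap (jc.measurable.ennreal_ofReal.aemeasurable)
      _ = ∫⁻ θ in Ioc 0 (2 * π), ∫⁻ v, ENNReal.ofReal (q v) :=
          lintegral_congr fun θ =>
            (mp_smul (hc θ)).lintegral_comp (qc.measurable.ennreal_ofReal)
      _ = _ := by rw [setLIntegral_const, Real.volume_Ioc, sub_zero, mul_comm]
  exact (ENNReal.mul_le_mul_iff_right (ENNReal.ofReal_pos.2 hp).ne' ENNReal.ofReal_ne_top).1 h6

end Pool.Agent.Lib.PM81
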