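import Pool.Agent.Lib.PM81.Core
import Pool.Agent.Lib.SV.H_BOCH4
import Pool.Agent.Lib.SV.H_MOLL
import Pool.Agent.Lib.SV.H_WAP
import Pool.Agent.Lib.SV.H_RIE
import Pool.Agent.Lib.SV.B_RM
import Pool.Agent.Lib.SV.B_CUT
import Pool.Agent.Lib.SV.B_IBP
import Pool.Agent.Lib.SV.B_SUB
import Pool.Agent.Lib.SV.B_WEI
import Pool.Agent.Lib.SV.B_MON
import Pool.Agent.Lib.SV.B_WEYL

/-! The theorem of Hörmander on the whole space, with the sharp constant. -/

open scoped Classical Topology ENNReal ComplexConjugate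
open Set MeasureTheory Complex Filter Metric

set_option linter.unusedVariables false
set_option linter.unusedSectionVars false

noncomputable section

namespace Pool.Agent.Lib.PM81

open Pool.Agent.Lib.SV Pool.Agent.Lib.SV.CORE

variable {n : ℕ}

theorem rd_id : RD (id : E n → E n) univ :=
  ⟨isOpen_univ, fun y _ => ⟨OpenPartialHomeomorph.refl _, mem_univ _, rfl⟩⟩

/-- The whole space as a Riemann domain. -/
@[reducible] def eu (n : ℕ) : Dom n where
  Y := E n
  p := id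
  W := univ
  rd := rd_id

theorem cht_id : Cht (id : E n → E n) univ (OpenPartialHomeomorph.refl (E n)) :=
  ⟨subset_univ _, fun _ _ => rfl⟩

theorem mu_eu : (eu n).μ = volume := by
  ext A hA
  simpa using (stRM n (eu n)).1.inj A hA (subset_univ _) (injOn_id _)

section
variable {F : Type} [NormedAddCommGroup F] [NormedSpace ℝ F]

theorem sm_id' {k : ℕ} {f : E n → F} {y : E n} : Sm id k f y ↔ ContDiffAt ℝ k f y :=
  cht_id.sm_iff (mem_univ _)

theorem dd_id' (f : E n → F) (y : E n) : dd id f y = fderiv ℝ f y := cht_id.dd_eq (mem_univ _) f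

end

theorem lev_id' (f : E n → ℝ) (y v : E n) : lev id f y v = levE f y v :=
  cht_id.lev_eq (mem_univ _) f v

theorem hol_id' {f : E n → ℂ} {y : E n} : Hol id f y ↔ DifferentiableAt ℂ f y :=
  cht_id.hol_iff (mem_univ _)

/-- Cut-off functions with bounded gradients. -/
theorem exists_cut : ∃ (η : ℕ → E n → ℝ) (C : ℝ), (∀ k, Tst id univ 2 (η k)) ∧
    (∀ k y, η k y ^ 2 ≤ 1) ∧ (∀ y, ∀ᶠ k in atTop, η k =ᶠ[𝓝 y] fun _ => 1) ∧
    ∀ k y i, ‖dz id i (fun x => (η k x : ℂ)) y‖ ≤ C := by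
  let b : ContDiffBump (0 : E n) := ⟨1, 2, one_pos, one_lt_two⟩
  have hb : ContDiff ℝ 2 b := b.contDiff
  obtain ⟨C, hC⟩ := ((hb.continuous_fderiv (by norm_num)).bounded_above_of_compact_support
    (b.hasCompactSupport.fderiv ℝ))
  have hC0 : 0 ≤ C := (norm_nonneg _).trans (hC 0)
  have hk : ∀ k : ℕ, (0 : ℝ) < k + 1 := fun k => by positivity
  have hs : ∀ k : ℕ, ContDiff ℝ 2 fun y : E n => b (((k : ℝ) + 1)⁻¹ • y) :=
    fun k => hb.comp (contDiff_id.const_smul _)
  refine ⟨fun k y => b (((k : ℝ) + 1)⁻¹ • y), C, fun k => ⟨fun y _ => sm_id'.2 (hs k).contDiffAt,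
    closedBall 0 (2 * (k + 1)), isCompact_closedBall _ _, subset_univ _, fun y hy => ?_⟩,
    fun k y => pow_le_one₀ b.nonneg b.le_one, fun y => ?_, fun k y i => ?_⟩
  · refine b.zero_of_le_dist ?_
    rw [mem_closedBall_zero_iff, not_le] at hy
    rw [dist_zero_right, norm_smul, Real.norm_of_nonneg (inv_pos.2 (hk k)).le,
      le_inv_mul_iff₀ (hk k)]
    show (k + 1 : ℝ) * 2 ≤ _
    linarith
  · filter_upwards [tendsto_natCast_atTop_atTop.eventually_ge_atTop (‖y‖ + 1)] with k hk'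
    filter_upwards [ball_mem_nhds y one_pos] with x hx
    refine b.one_of_mem_closedBall ?_
    rw [mem_closedBall_zero_iff, norm_smul, Real.norm_of_nonneg (inv_pos.2 (hk k)).le,
      inv_mul_le_iff₀ (hk k)]
    show _ ≤ (k + 1 : ℝ) * 1
    have := norm_sub_norm_le x y
    rw [mem_ball, dist_eq_norm] at hx
    linarith
  · have h1 : HasFDerivAt (fun y : E n => b (((k : ℝ) + 1)⁻¹ • y))
        ((fderiv ℝ b (((k : ℝ) + 1)⁻¹ • y)).comp
          (((k : ℝ) + 1)⁻¹ • ContinuousLinearMap.id ℝ (E n))) y :=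
      (hb.differentiable (by norm_num) _).hasFDerivAt.comp y
        (((k : ℝ) + 1)⁻¹ • ContinuousLinearMap.id ℝ (E n)).hasFDerivAt
    have h2 : ∀ v : E n, ‖v‖ ≤ 1 →
        ‖dd id (fun x : E n => ((b (((k : ℝ) + 1)⁻¹ • x) : ℝ) : ℂ)) y v‖ ≤ C := fun v hv => by
      rw [dd_ofReal (sm_id'.2 ((hs k).of_le (by norm_num)).contDiffAt), dd_id', h1.fderiv,
        norm_real]
      have h3 : ‖((k : ℝ) + 1)⁻¹ • v‖ ≤ 1 := by
        rw [norm_smul, Real.norm_of_nonneg (inv_pos.2 (hk k)).le]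
        exact mul_le_one₀
          (inv_le_one_of_one_le₀ (by linarith [(Nat.cast_nonneg k : (0 : ℝ) ≤ k)]))
          (norm_nonneg _) hv
      exact ((fderiv ℝ b _).le_opNorm (((k : ℝ) + 1)⁻¹ • v)).trans
        ((mul_le_mul (hC _) h3 (norm_nonneg _) hC0).trans_eq (mul_one _))
    rw [dz, norm_div, Complex.norm_ofNat, div_le_iff₀ two_pos]
    refine (norm_sub_le _ _).trans ?_
    rw [norm_mul, norm_I, one_mul]
    linarith [h2 (Pi.single i 1) (by simp [Pi.norm_single]),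
      h2 (Pi.single i I) (by simp [Pi.norm_single])]

theorem le_of_one_add {x y : ℝ} (h : ∀ t : ℝ, 0 < t → x ≤ (1 + t) * y) : x ≤ y := by
  have h1 : Tendsto (fun t : ℝ => (1 + t) * y) (𝓝[>] 0) (𝓝 ((1 + 0) * y)) :=
    (((continuous_const.add continuous_id).mul continuous_const).tendsto 0).mono_left
      nhdsWithin_le_nhds
  rw [add_zero, one_mul] at h1
  exact ge_of_tendsto h1 (eventually_mem_nhdsWithin.mono h)

/-- The theorem of Hörmander with the constant one. -/
theorem hor {Φ h : E n → ℝ} {G : E n → ℂ} (hΦ : ContDiff ℝ 2 Φ) (hG : ContDiff ℝ 2 G)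
    (h0 : ∀ y, 0 ≤ h y) (hl : ∀ y v, 0 ≤ levE Φ y v)
    (hq : ∀ y v, ‖fderiv ℝ G y v + I * fderiv ℝ G y (I • v)‖ ^ 2 ≤ h y * levE Φ y v)
    (hm : Integrable fun y => h y * Real.exp (-Φ y))
    (hf : ∀ j, Integrable fun y => ‖dzb id j G y‖ ^ 2 * Real.exp (-Φ y)) :
    ∃ f : E n → ℂ, Differentiable ℂ f ∧
      ∫⁻ y, ENNReal.ofReal (‖G y - f y‖ ^ 2 * Real.exp (-Φ y)) ≤
        ENNReal.ofReal (∫ y, h y * Real.exp (-Φ y)) := by
  have kRM : St_RM := stRM
  have kCUT : St_CUT := stCUT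
  have kIBP : St_IBP := stIBP kRM kCUT
  have kWAP : St_WAP := stWAP kRM kIBP (stBOCH4 kRM kIBP) (stMOLL kRM kCUT kIBP)
  have kRIE : St_RIE :=
    stRIE kRM kIBP (stWEYL kRM stSUB stWEI kCUT kIBP (stMON kRM stSUB stWEI))
  obtain ⟨η, C, η1, η2, η3, η4⟩ := exists_cut (n := n)
  have e2 : (fun x => 2 * (Φ x / 2)) = Φ := by funext x; ring
  have e3 : ∀ x, 2 * (Φ x / 2) = Φ x := fun x => by ring
  have hu : ∀ y, Sm id 2 (fun x => Φ x / 2) y := fun y => sm_id'.2 (hΦ.div_const 2).contDiffAt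
  have sG : ∀ y, Sm id 2 G y := fun y => sm_id'.2 hG.contDiffAt
  have hM : 0 ≤ ∫ y, h y * Real.exp (-Φ y) :=
    integral_nonneg fun y => mul_nonneg (h0 y) (Real.exp_pos _).le
  have hL : ∀ j, MemLp (fun y => ex (fun x => -(Φ x / 2)) y * dzb id j G y) 2 (eu n).μ :=
    fun j => by
    have hm' : AEStronglyMeasurable (fun y => ex (fun x => -(Φ x / 2)) y * dzb id j G y)
        (eu n).μ := aesm_of_sm (eu n) kRM (k := 0) fun y hy =>
      (sm_ex (D := eu n) (hu y).neg).zero.mul ((sG y).dzb ((eu n).rd.locH hy) j).zero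
    rw [memLp_two_iff_integrable_sq_norm hm', mu_eu]
    refine (hf j).congr (Eventually.of_forall fun y => ?_)
    beta_reduce
    rw [norm_mul, mul_pow, ex, norm_real, Real.norm_eq_abs, sq_abs, ← Real.exp_nat_mul, mul_comm]
    congr 2
    push_cast
    ring
  obtain ⟨f, f1, f2⟩ := kRIE n (eu n) G Φ
    (ENNReal.ofReal (∫ y, h y * Real.exp (-Φ y))) ENNReal.ofReal_ne_top
    (fun y _ => ⟨sG y, sm_id'.2 hΦ.contDiffAt⟩) fun α hα => by
      have key := fun (t : ℝ) (ht : 0 < t) =>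
        core_1 (D := eu n) kRM kIBP kWAP (u := fun x => Φ x / 2) (h := h)
        (m := fun y => h y * Real.exp (-Φ y)) (G := G) (α := α) (η := η) (C := C) ht
        (fun y _ => hu y) (fun y _ => sG y) (fun y _ => ⟨h0 y, by rw [e3], fun v => by
          rw [e2, lev_id', dbar, dd_id']; exact ⟨hl y v, hq y v⟩⟩)
        (by rwa [mu_eu]) hL hα η1 η2 (fun y _ => η3 y) fun k y _ i => η4 k y i
      simp only [e3] at key
      have hδ := Tst.dv (eu n).rd hα
      have hT : Integrable (fun y => ‖dv id α y‖ ^ 2 * Real.exp (Φ y)) (eu n).μ := by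
        have := ((hδ.zero.mul_right fun y _ => (hδ.cj.sm y).zero).clm reCLM).mul_right
          (g := fun y => Real.exp (Φ y)) fun y _ => (sm_id'.2 hΦ.contDiffAt).exp.zero
        refine (this.integrable kRM).congr (Eventually.of_forall fun y => ?_)
        simp only [reCLM_apply, mul_conj, ofReal_re, normSq_eq_norm_sq]
      rw [← ofReal_integral_eq_lintegral_ofReal hT (Eventually.of_forall fun y => by positivity),
        ← ENNReal.ofReal_mul hM]
      refine ENNReal.ofReal_le_ofReal (le_of_one_add fun t ht => (key t ht).trans_eq ?_)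
      rw [mu_eu, mul_assoc]
  exact ⟨f, fun y => hol_id'.1 (f1 y (mem_univ _)), by rwa [mu_eu] at f2⟩

end Pool.Agent.Lib.PM81
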