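import Pool.Agent.Lib.SV.H_CORE2

/-! The estimate of Hörmander in dual form with the sharp constant, on a complete domain. -/

open scoped Classical Topology ENNReal ComplexConjugate
open Set MeasureTheory Complex Filter Metric

set_option linter.unusedVariables false
set_option linter.unusedSectionVars false

noncomputable section

namespace Pool.Agent.Lib.PM81

open Pool.Agent.Lib.SV Pool.Agent.Lib.SV.CORE

theorem alg1 {n : ℕ} (d a : Fin n → ℂ) (X : ℂ) {t : ℝ} (ht : 0 < t) :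
    ‖X + ∑ i, d i * a i‖ ^ 2 + (1 / 2) * ∑ j, ∑ k, ‖conj (d j) * a k - conj (d k) * a j‖ ^ 2 ≤
      (1 + t) * ‖X‖ ^ 2 + (1 + t⁻¹ + 2 * n ^ 2) * ((∑ i, ‖d i‖) * ∑ i, ‖a i‖) ^ 2 := by
  set r := ∑ i, ‖d i‖
  set A := ∑ i, ‖a i‖
  have hd : ∀ i, ‖d i‖ ≤ r := fun i =>
    Finset.single_le_sum (f := fun i => ‖d i‖) (fun _ _ => norm_nonneg _) (Finset.mem_univ i)
  have ha : ∀ i, ‖a i‖ ≤ A := fun i =>
    Finset.single_le_sum (f := fun i => ‖a i‖) (fun _ _ => norm_nonneg _) (Finset.mem_univ i)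
  have hr : 0 ≤ r := Finset.sum_nonneg fun _ _ => norm_nonneg _
  have h1 : ‖∑ i, d i * a i‖ ≤ r * A := by
    refine (norm_sum_le _ _).trans ?_
    rw [Finset.sum_mul]
    exact Finset.sum_le_sum fun i _ => by
      rw [norm_mul]; exact mul_le_mul_of_nonneg_left (ha i) (norm_nonneg _)
  have h2 : ∀ j k, ‖conj (d j) * a k‖ ≤ r * A := fun j k => by
    rw [norm_mul, RCLike.norm_conj]
    exact mul_le_mul (hd j) (ha k) (norm_nonneg _) hr
  have h3 : ∑ j, ∑ k, ‖conj (d j) * a k - conj (d k) * a j‖ ^ 2 ≤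
      ∑ j : Fin n, ∑ k : Fin n, (2 * (r * A)) ^ 2 :=
    Finset.sum_le_sum fun j _ => Finset.sum_le_sum fun k _ => pow_le_pow_left₀ (norm_nonneg _)
      ((norm_sub_le _ _).trans (by linarith [h2 j k, h2 k j])) 2
  simp only [Finset.sum_const, Finset.card_univ, Fintype.card_fin, nsmul_eq_mul] at h3
  have h4 : ‖X + ∑ i, d i * a i‖ ≤ ‖X‖ + r * A :=
    (norm_add_le _ _).trans (by linarith)
  have h5 := pow_le_pow_left₀ (norm_nonneg _) h4 2
  have h6 : 2 * (‖X‖ * (r * A)) ≤ t * ‖X‖ ^ 2 + t⁻¹ * (r * A) ^ 2 := by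
    have : t * ‖X‖ ^ 2 + t⁻¹ * (r * A) ^ 2 - 2 * (‖X‖ * (r * A)) =
        t⁻¹ * (t * ‖X‖ - r * A) ^ 2 := by
      field_simp; ring
    have h7 : 0 ≤ t⁻¹ * (t * ‖X‖ - r * A) ^ 2 := by positivity
    linarith
  nlinarith

variable {n : ℕ} {D : Dom n}

/-- The pointwise bound of the Bochner integrand. -/
theorem bq_le1 {u η : D.Y → ℝ} {y : D.Y} (hu : Sm D.p 2 u y)
    (hη : Sm D.p 2 η y) (h1 : η y ^ 2 ≤ 1) (a : Fin n → D.Y → ℂ) (δ : D.Y → ℂ) {t : ℝ}
    (ht : 0 < t) :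
    bq D.p (fun x => 2 * u x) (fun i y => η y * ex u y * a i y)
      (fun y => η y * ex u y * ex u y * δ y + ∑ i, ex (fun x => -u x) y *
        dz D.p i (fun x => η x * ex u x * ex u x) y * a i y)
      (fun j k y => ex u y * dzb D.p j (fun x => (η x : ℂ)) y * a k y -
        ex u y * dzb D.p k (fun x => (η x : ℂ)) y * a j y) y ≤
      -(lev D.p (fun x => 2 * u x) y (fun i => η y * ex u y * a i y) / 4 *
          Real.exp (-(2 * u y))) +
        (1 + t) * (‖δ y‖ ^ 2 * Real.exp (2 * u y)) + (1 + t⁻¹ + 2 * n ^ 2) *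
          ((∑ i, ‖dz D.p i (fun x => (η x : ℂ)) y‖) * ∑ i, ‖a i y‖) ^ 2 := by
  have he := (sm_ex hu).one
  have hc := hη.one.ofReal
  have e1 : ∀ i, dz D.p i (ex u) y = ex u y * dz D.p i (fun x => (u x : ℂ)) y :=
    fun i => dz_exp hu.one
  have e2 : ∀ i, dz D.p i (fun x => ((2 * u x : ℝ) : ℂ)) y =
      2 * dz D.p i (fun x => (u x : ℂ)) y := fun i => by
    simp only [ofReal_mul, ofReal_ofNat]
    rw [dz_const_mul _ hu.one.ofReal]
  set S := ex (fun x => -u x) y with hS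
  have hN : ∀ z : ℂ, normSq z * Real.exp (-(2 * u y)) = ‖S * z‖ ^ 2 := fun z => by
    rw [norm_mul, mul_pow, normSq_eq_norm_sq, mul_comm, hS, ex, norm_real,
      Real.norm_eq_abs, sq_abs, ← Real.exp_nat_mul]
    congr 2
    push_cast; ring
  have key := alg1 (fun i => dz D.p i (fun x => (η x : ℂ)) y) (fun i => a i y)
    (S * (η y * ex u y * ex u y * δ y)) ht
  have hX : ‖S * (η y * ex u y * ex u y * δ y)‖ ^ 2 ≤ ‖δ y‖ ^ 2 * Real.exp (2 * u y) := by
    rw [← hN, normSq_eq_norm_sq, norm_mul, norm_mul, norm_mul, ex, norm_real, norm_real,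
      Real.norm_eq_abs, Real.norm_eq_abs, abs_of_pos (Real.exp_pos _)]
    have : Real.exp (2 * u y) = Real.exp (u y) ^ 4 * Real.exp (-(2 * u y)) := by
      rw [← Real.exp_nat_mul, ← Real.exp_add]; congr 1; push_cast; ring
    rw [this, mul_pow, mul_pow, mul_pow, sq_abs]
    have : 0 ≤ ‖δ y‖ ^ 2 * (Real.exp (u y) ^ 4 * Real.exp (-(2 * u y))) := by positivity
    nlinarith
  have hσ : ∀ j k, S * (ex u y * dzb D.p j (fun x => (η x : ℂ)) y * a k y -
      ex u y * dzb D.p k (fun x => (η x : ℂ)) y * a j y) =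
      conj (dz D.p j (fun x => (η x : ℂ)) y) * a k y -
        conj (dz D.p k (fun x => (η x : ℂ)) y) * a j y := fun j k => by
    rw [dzb_ofReal hη.one, dzb_ofReal hη.one, hS]
    linear_combination (conj (dz D.p j (fun x => (η x : ℂ)) y) * a k y -
      conj (dz D.p k (fun x => (η x : ℂ)) y) * a j y) * ex_mul u y
  have hg : S * (η y * ex u y * ex u y * δ y + ∑ i, ex (fun x => -u x) y *
        dz D.p i (fun x => η x * ex u x * ex u x) y * a i y -
      ∑ j, dz D.p j (fun x => ((2 * u x : ℝ) : ℂ)) y * (η y * ex u y * a j y)) =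
      S * (η y * ex u y * ex u y * δ y) + ∑ i, dz D.p i (fun x => (η x : ℂ)) y * a i y := by
    rw [add_sub_assoc, mul_add, ← Finset.sum_sub_distrib, Finset.mul_sum]
    congr 1
    refine Finset.sum_congr rfl fun i _ => ?_
    rw [dz_mul (hc.mul he) he, dz_mul hc he, e1, e2, hS]
    have := ex_mul u y
    linear_combination a i y * (dz D.p i (fun x => (η x : ℂ)) y *
      (ex u y * ex (fun x => -u x) y + 1) + 2 * η y * dz D.p i (fun x => (u x : ℂ)) y *
      (ex u y * ex (fun x => -u x) y)) * this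
  have hs : (∑ j, ∑ k, normSq (ex u y * dzb D.p j (fun x => (η x : ℂ)) y * a k y -
      ex u y * dzb D.p k (fun x => (η x : ℂ)) y * a j y)) * Real.exp (-(2 * u y)) =
      ∑ j, ∑ k, ‖conj (dz D.p j (fun x => (η x : ℂ)) y) * a k y -
        conj (dz D.p k (fun x => (η x : ℂ)) y) * a j y‖ ^ 2 := by
    simp only [Finset.sum_mul, hN, hσ]
  rw [← hg, ← hs, ← hN] at key
  have hX' := mul_le_mul_of_nonneg_left hX (show 0 ≤ 1 + t by positivity)
  rw [bq]
  linarith

theorem opt1 {x M T c : ℝ} (hx : 0 ≤ x) (hM : 0 ≤ M) (hT : 0 ≤ T) (hc : 0 ≤ c)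
    (h : ∀ s > 0, x ≤ s / 2 * M + 1 / (2 * s) * (c * T)) : x ^ 2 ≤ c * M * T := by
  have := opt (T := c * T / 4) hx hM (by positivity) fun s hs =>
    (h s hs).trans_eq (by ring)
  linarith

/-- The estimate with one weight and the constant `1 + t`. -/
theorem core_1 (hRM : St_RM) (hI : St_IBP) (hW : St_WAP) {u h m : D.Y → ℝ} {G : D.Y → ℂ}
    {α : Fin n → D.Y → ℂ} {η : ℕ → D.Y → ℝ} {C t : ℝ} (ht : 0 < t) (hu : ∀ y ∈ D.W, Sm D.p 2 u y)
    (hG : ∀ y ∈ D.W, Sm D.p 2 G y)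
    (hq : ∀ y ∈ D.W, 0 ≤ h y ∧ h y * Real.exp (-(2 * u y)) ≤ m y ∧ ∀ v,
      0 ≤ lev D.p (fun x => 2 * u x) y v ∧
      ‖dbar D.p G y v‖ ^ 2 ≤ h y * lev D.p (fun x => 2 * u x) y v)
    (hm : Integrable m D.μ)
    (hf : ∀ j, MemLp (fun y => ex (fun x => -u x) y * dzb D.p j G y) 2 D.μ)
    (hα : ∀ j, Tst D.p D.W 2 (α j)) (hη : ∀ k, Tst D.p D.W 2 (η k)) (h1 : ∀ k y, η k y ^ 2 ≤ 1)
    (h2 : ∀ y ∈ D.W, ∀ᶠ k in atTop, η k =ᶠ[𝓝 y] fun _ => 1)
    (h3 : ∀ k, ∀ y ∈ D.W, ∀ i, ‖dz D.p i (fun x => (η k x : ℂ)) y‖ ≤ C) :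
    ‖∫ y, ∑ j, conj (dzb D.p j G y) * α j y ∂D.μ‖ ^ 2 ≤
      (1 + t) * (∫ y, m y ∂D.μ) * ∫ y, ‖dv D.p α y‖ ^ 2 * Real.exp (2 * u y) ∂D.μ := by
  obtain ⟨a, ha, hc, hd, hP⟩ := exists_proj hRM hI hu hG hf hα
  have hδ := Tst.dv D.rd hα
  have hT : Integrable (fun y => ‖dv D.p α y‖ ^ 2 * Real.exp (2 * u y)) D.μ := by
    have := ((hδ.zero.mul_right fun y _ => (hδ.cj.sm y).zero).clm reCLM).mul_right
      (g := fun y => Real.exp (2 * u y))
      fun y hy => ((sm_const 2).mul (hu y hy)).exp.zero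
    refine (this.integrable hRM).congr (Eventually.of_forall fun y => ?_)
    simp only [reCLM_apply, mul_conj, ofReal_re, normSq_eq_norm_sq]
  set A : D.Y → ℝ := fun y => ∑ i, ‖a i y‖ with hA
  have hAL : MemLp A 2 D.μ := memLp_finsetSum _ fun i _ => (ha i).norm
  set r : ℕ → D.Y → ℝ := fun k y => ∑ i, ‖dz D.p i (fun x => (η k x : ℂ)) y‖ with hr
  have hrm : ∀ k, AEStronglyMeasurable (fun y => (r k y * A y) ^ 2) D.μ := fun k => by
    refine (AEStronglyMeasurable.mul (Finset.aestronglyMeasurable_fun_sum _ fun i _ =>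
      AEStronglyMeasurable.norm ?_) hAL.1).pow 2
    exact aesm_of_sm D hRM (k := 0) fun y hy => (((hη k).ofReal.dz D.rd i).sm y).zero
  have hrb : ∀ k, ∀ᵐ y ∂D.μ, ‖(r k y * A y) ^ 2‖ ≤ (n * C) ^ 2 * A y ^ 2 := fun k => by
    filter_upwards [ae_mem D hRM] with y hy
    rw [Real.norm_of_nonneg (sq_nonneg _), mul_pow]
    refine mul_le_mul_of_nonneg_right (pow_le_pow_left₀
      (Finset.sum_nonneg fun _ _ => norm_nonneg _) ?_ 2) (sq_nonneg _)
    simpa using Finset.sum_le_sum (s := Finset.univ) fun i _ => h3 k y hy i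
  have hb := (hAL.integrable_sq).const_mul ((n * C) ^ 2)
  have hri : ∀ k, Integrable (fun y => (r k y * A y) ^ 2) D.μ :=
    fun k => hb.mono' (hrm k) (hrb k)
  have hr0 : Tendsto (fun k => ∫ y, (r k y * A y) ^ 2 ∂D.μ) atTop (𝓝 (∫ _, (0 : ℝ) ∂D.μ)) := by
    refine tendsto_integral_of_dominated_convergence _ hrm hb hrb ?_
    filter_upwards [ae_mem D hRM] with y hy
    refine tendsto_const_nhds.congr' ?_
    filter_upwards [h2 y hy] with k hk
    have : ∀ i, dz D.p i (fun x => (η k x : ℂ)) y = 0 := fun i => by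
      exact (dz_congr (hk.fun_comp ofReal)).trans (dz_const ((1 : ℝ) : ℂ))
    simp [hr, this]
  set P : D.Y → ℂ := fun y => ∑ i, conj (ex (fun x => -u x) y * dzb D.p i G y) * a i y with hPd
  have hPi : Integrable P D.μ :=
    integrable_finsetSum _ fun i _ => (memLp_conj (hf i)).integrable_mul (ha i)
  have hP0 : Tendsto (fun k => ∫ y, η k y * P y ∂D.μ) atTop (𝓝 (∫ y, P y ∂D.μ)) := by
    refine tendsto_integral_of_dominated_convergence _
      (fun k => ((hη k).ofReal.continuous D.rd).aestronglyMeasurable.mul hPi.1) hPi.norm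
      (fun k => Eventually.of_forall fun y => ?_) ?_
    · rw [norm_mul, norm_real, Real.norm_eq_abs]
      exact mul_le_of_le_one_left (norm_nonneg _) ((sq_le_one_iff_abs_le_one _).1 (h1 k y))
    · filter_upwards [ae_mem D hRM] with y hy
      refine tendsto_const_nhds.congr' ?_
      filter_upwards [h2 y hy] with k hk
      rw [hk.self_of_nhds, ofReal_one, one_mul]
  have hm0 : 0 ≤ᵐ[D.μ] m := by
    filter_upwards [ae_mem D hRM] with y hy
    exact (mul_nonneg (hq y hy).1 (Real.exp_pos _).le).trans (hq y hy).2.1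
  rw [← hP]
  refine opt1 (norm_nonneg _) (integral_nonneg_of_ae hm0)
    (integral_nonneg fun y => by positivity) (by positivity) fun s hs => ?_
  have hl := (((hr0.const_mul (1 + t⁻¹ + 2 * (n : ℝ) ^ 2)).const_add
    ((1 + t) * ∫ y, ‖dv D.p α y‖ ^ 2 * Real.exp (2 * u y) ∂D.μ)).const_mul
      (1 / (2 * s))).const_add (s / 2 * ∫ y, m y ∂D.μ)
  rw [integral_zero, mul_zero, add_zero] at hl
  refine le_of_tendsto_of_tendsto' hP0.norm hl fun k => ?_
  obtain ⟨K, hK⟩ := weak_cut hRM hu ha (hδ.memLp hRM 2) hc hd (hη k).ofReal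
  obtain ⟨i1, -, i2⟩ := hW n D (fun x => 2 * u x) K _ _ _
    (fun y hy => (sm_const 2).mul (hu y hy)) hK
  have j1 := (hT.const_mul (1 + t)).add ((hri k).const_mul (1 + t⁻¹ + 2 * (n : ℝ) ^ 2))
  have j2 := (hm.const_mul (s / 2)).add ((j1.sub i1).const_mul (1 / (2 * s)))
  refine (norm_integral_le_of_norm_le j2 ?_).trans ?_
  · filter_upwards [ae_mem D hRM] with y hy
    obtain ⟨q1, q2, q3⟩ := hq y hy
    have b1 := bq_le1 (hu y hy) ((hη k).sm y) (h1 k y) a (dv D.p α) ht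
    have b0 := pair_sq (ψ := fun _ => 0) a (q3 (fun i => η k y * ex u y * a i y)).2
    rw [zero_sub, add_zero] at b0
    have b2 := amgm (mul_nonneg q1 (Real.exp_pos _).le)
      (mul_nonneg (div_nonneg (q3 _).1 (by norm_num)) (Real.exp_pos _).le) hs b0
    refine b2.trans (add_le_add (mul_le_mul_of_nonneg_left q2 (by positivity))
      (mul_le_mul_of_nonneg_left ?_ (by positivity)))
    simp only [Pi.sub_apply, Pi.add_apply, hr, hA]
    linarith
  · rw [integral_add' (hm.const_mul _) ((j1.sub i1).const_mul _), integral_const_mul,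
      integral_const_mul, integral_sub' j1 i1, integral_add' (hT.const_mul _) ((hri k).const_mul _),
      integral_const_mul, integral_const_mul]
    gcongr
    linarith

end Pool.Agent.Lib.PM81
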