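import Pool.Agent.Lib.PM.Blue
import Pool.Agent.Lib.HS32.EKit

/-! Functions of polynomial growth against weights with Gaussian decay. -/

open scoped Classical Topology ContDiff
open Set MeasureTheory Complex Metric Filter

noncomputable section

namespace Pool.Agent.Lib.PM81

open Pool.Agent.Lib.SV (E)
open Pool.Agent.Lib.PM (levi2)

variable {n : ℕ}

/-- Families of continuous functions with a uniform polynomial bound. -/
structure Pg {ι A : Type} [NormedRing A] (S : Set ι) (f : ι → E n → A) : Prop where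
  cont : ∀ s ∈ S, Continuous (f s)
  bd : ∃ (C : ℝ) (m : ℕ), 0 ≤ C ∧ ∀ s ∈ S, ∀ v, ‖f s v‖ ≤ C * (1 + ‖v‖) ^ m

section
variable {ι A : Type} [NormedRing A] {S : Set ι} {f g : ι → E n → A}

theorem Pg.of_bd {k : ι → A} {C : ℝ} (h : ∀ s ∈ S, ‖k s‖ ≤ C) :
    Pg S fun s (_ : E n) => k s :=
  ⟨fun _ _ => continuous_const, max C 0, 0, le_max_right _ _, fun s hs v => by
    rw [pow_zero, mul_one]; exact (h s hs).trans (le_max_left _ _)⟩

theorem Pg.const (k : A) : Pg S fun _ (_ : E n) => k := Pg.of_bd (C := ‖k‖) fun _ _ => le_rfl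

theorem Pg.mul (hf : Pg S f) (hg : Pg S g) : Pg S fun s v => f s v * g s v := by
  obtain ⟨C, m, hC, h1⟩ := hf.bd
  obtain ⟨D, k, hD, h2⟩ := hg.bd
  refine ⟨fun s hs => (hf.cont s hs).mul (hg.cont s hs), C * D, m + k, by positivity,
    fun s hs v => (norm_mul_le _ _).trans ?_⟩
  rw [pow_add, mul_mul_mul_comm]
  exact mul_le_mul (h1 s hs v) (h2 s hs v) (norm_nonneg _) (by positivity)

theorem Pg.add (hf : Pg S f) (hg : Pg S g) : Pg S fun s v => f s v + g s v := by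
  obtain ⟨C, m, hC, h1⟩ := hf.bd
  obtain ⟨D, k, hD, h2⟩ := hg.bd
  refine ⟨fun s hs => (hf.cont s hs).add (hg.cont s hs), C + D, m + k, by positivity,
    fun s hs v => (norm_add_le _ _).trans ?_⟩
  have h0 : 1 ≤ 1 + ‖v‖ := by linarith [norm_nonneg v]
  rw [add_mul]
  exact add_le_add ((h1 s hs v).trans (mul_le_mul_of_nonneg_left
    (pow_le_pow_right₀ h0 (by omega)) hC)) ((h2 s hs v).trans (mul_le_mul_of_nonneg_left
    (pow_le_pow_right₀ h0 (by omega)) hD))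

theorem Pg.neg (hf : Pg S f) : Pg S fun s v => -f s v :=
  ⟨fun s hs => (hf.cont s hs).neg, by simpa only [norm_neg] using hf.bd⟩

theorem Pg.sub (hf : Pg S f) (hg : Pg S g) : Pg S fun s v => f s v - g s v := by
  simpa only [sub_eq_add_neg] using hf.add hg.neg

theorem Pg.clm {B : Type} [NormedRing B] [NormedSpace ℝ A] [NormedSpace ℝ B] (hf : Pg S f)
    (L : A →L[ℝ] B) : Pg S fun s v => L (f s v) := by
  obtain ⟨C, m, hC, h1⟩ := hf.bd
  refine ⟨fun s hs => L.continuous.comp (hf.cont s hs), ‖L‖ * C, m, by positivity,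
    fun s hs v => (L.le_opNorm _).trans ?_⟩
  rw [mul_assoc]
  exact mul_le_mul_of_nonneg_left (h1 s hs v) (norm_nonneg _)

theorem Pg.lin [NormedSpace ℝ A] (L : E n →L[ℝ] A) : Pg S fun _ v => L v :=
  ⟨fun _ _ => L.continuous, ‖L‖, 1, norm_nonneg _, fun _ _ v => (L.le_opNorm v).trans
    (mul_le_mul_of_nonneg_left (by rw [pow_one]; linarith) (norm_nonneg _))⟩

theorem Pg.nsq {f : ι → E n → ℂ} (hf : Pg S f) : Pg S fun s v => normSq (f s v) := by
  simpa only [normSq_apply, reCLM_apply, imCLM_apply] using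
    ((hf.clm reCLM).mul (hf.clm reCLM)).add ((hf.clm imCLM).mul (hf.clm imCLM))

end

/-- Integrability of the polynomials against a Gaussian. -/
def Gs (n : ℕ) : Prop := ∀ (m : ℕ) (c : ℝ), 0 < c →
  Integrable fun v : E n => (1 + ‖v‖) ^ m * Real.exp (-(c * ‖v‖ ^ 2))

/-- Families of continuous weights with a uniform quadratic lower bound. -/
structure Wq {ι : Type} (S : Set ι) (ψ : ι → E n → ℝ) : Prop where
  cont : ∀ s ∈ S, Continuous (ψ s)
  bd : ∃ c C : ℝ, 0 < c ∧ ∀ s ∈ S, ∀ v, c * ‖v‖ ^ 2 - C ≤ ψ s v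

section
variable {ι : Type} {S : Set ι} {f ψ : ι → E n → ℝ}

theorem Pg.dom (hf : Pg S f) (hg : Gs n) (hψ : Wq S ψ) : ∃ B : E n → ℝ, Integrable B ∧
    ∀ v, ∀ s ∈ S, ‖f s v * Real.exp (-ψ s v)‖ ≤ B v := by
  obtain ⟨C, m, hC, h1⟩ := hf.bd
  obtain ⟨c, D, hc, h2⟩ := hψ.bd
  refine ⟨_, (hg m c hc).const_mul (C * Real.exp D), fun v s hs => ?_⟩
  rw [norm_mul, Real.norm_of_nonneg (Real.exp_pos _).le, mul_mul_mul_comm, ← Real.exp_add]
  exact mul_le_mul (h1 s hs v) (Real.exp_le_exp.2 (by linarith [h2 s hs v])) (Real.exp_pos _).le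
    (by positivity)

theorem Pg.meas (hf : Pg S f) (hψ : Wq S ψ) {s : ι} (hs : s ∈ S) :
    AEStronglyMeasurable (fun v => f s v * Real.exp (-ψ s v)) volume :=
  ((hf.cont s hs).mul (hψ.cont s hs).neg.rexp).aestronglyMeasurable

theorem Pg.intg (hf : Pg S f) (hg : Gs n) (hψ : Wq S ψ) {s : ι} (hs : s ∈ S) :
    Integrable fun v => f s v * Real.exp (-ψ s v) := by
  obtain ⟨B, h1, h2⟩ := hf.dom hg hψ
  exact h1.mono' (hf.meas hψ hs) (.of_forall fun v => h2 v s hs)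

end

/-- The derivative under the integral. -/
theorem Pg.der {S : Set ℝ} {p q ψ : ℝ → E n → ℝ} (hS : IsOpen S) (hg : Gs n) (hψ : Wq S ψ)
    (hp : Pg S p) (hq : Pg S q) (h : ∀ v, ∀ s ∈ S,
      HasDerivAt (fun s => p s v * Real.exp (-ψ s v)) (q s v * Real.exp (-ψ s v)) s)
    {s : ℝ} (hs : s ∈ S) : HasDerivAt (fun s => ∫ v, p s v * Real.exp (-ψ s v))
      (∫ v, q s v * Real.exp (-ψ s v)) s := by
  obtain ⟨B, h1, h2⟩ := hq.dom hg hψ
  exact (hasDerivAt_integral_of_dominated_loc_of_deriv_le (hS.mem_nhds hs)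
    ((hS.eventually_mem hs).mono fun _ hx => hp.meas hψ hx) (hp.intg hg hψ hs) (hq.meas hψ hs)
    (.of_forall h2) h1 (.of_forall h)).2

variable {Φ : E n × E n → ℝ} {z v : E n} {p : E n × E n}

section
variable {F : Type} [NormedAddCommGroup F] [NormedSpace ℝ F] {f : E n × E n → F}

theorem cont_fib (h : ∀ v, ContDiffAt ℝ ∞ f (z, v)) : ContDiff ℝ ∞ fun v => f (z, v) :=
  contDiff_iff_contDiffAt.2 fun v => (h v).comp v (contDiffAt_const.prodMk contDiffAt_id)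

theorem fd_base (h : ContDiffAt ℝ ∞ f (z, v)) : HasFDerivAt (fun x => f (x, v))
    ((fderiv ℝ f (z, v)).comp (ContinuousLinearMap.inl ℝ (E n) (E n))) z :=
  HasFDerivAt.comp (f := fun x => (x, v)) z (h.differentiableAt (by simp)).hasFDerivAt
    (hasFDerivAt_prodMk_left z v)

theorem fd_fib (h : ContDiffAt ℝ ∞ f (z, v)) : HasFDerivAt (fun x => f (z, x))
    ((fderiv ℝ f (z, v)).comp (ContinuousLinearMap.inr ℝ (E n) (E n))) v :=
  HasFDerivAt.comp (f := fun x => (z, x)) v (h.differentiableAt (by simp)).hasFDerivAt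
    (hasFDerivAt_prodMk_right z v)

theorem fd_sm (h : ContDiffAt ℝ ∞ f p) : ContDiffAt ℝ ∞ (fderiv ℝ f) p :=
  h.fderiv_right (m := ∞) (by simp)

end

theorem dir_sm (h : ContDiffAt ℝ ∞ Φ p) (q : E n × E n) :
    ContDiffAt ℝ ∞ (fun x => fderiv ℝ Φ x q) p := (fd_sm h).clm_apply contDiffAt_const

theorem fd_dir (h : ContDiffAt ℝ ∞ Φ p) (q q' : E n × E n) :
    fderiv ℝ (fun x => fderiv ℝ Φ x q') p q = fderiv ℝ (fderiv ℝ Φ) p q q' := by
  rw [fderiv_clm_apply ((fd_sm h).differentiableAt (by simp)) (differentiableAt_const _)]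
  simp

theorem levi2_eq (h : ContDiffAt ℝ ∞ Φ p) (q : E n × E n) : levi2 Φ p q =
    (fderiv ℝ (fderiv ℝ Φ) p q q + fderiv ℝ (fderiv ℝ Φ) p (I • q) (I • q)) / 4 := by
  rw [levi2, fd_dir h, fd_dir h]

theorem smul_base (a : E n) : I • ((a, 0) : E n × E n) = (I • a, 0) := by simp

theorem smul_fib (a : E n) : I • ((0, a) : E n × E n) = (0, I • a) := by simp

/-- The linear form given by a vector. -/
def lf (m : E n) : E n →L[ℂ] ℂ := ∑ i, star (m i) • ContinuousLinearMap.proj i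

theorem lf_apply (m v : E n) : lf m v = star m ⬝ᵥ v := by
  simp [lf, dotProduct]

theorem pg_lf {ι : Type} {S : Set ι} (m : E n) : Pg S fun _ (v : E n) => lf m v :=
  Pg.lin ((lf m).restrictScalars ℝ)

/-- The bounds along a family of points of the base. -/
theorem pg_wt {ι : Type} {S : Set ι} {w : ι → E n} {c C : ℝ} (hc : 0 < c) (hC : 0 ≤ C)
    (hs : ∀ s ∈ S, ∀ v, ContDiffAt ℝ ∞ Φ (w s, v))
    (hb : ∀ s ∈ S, ∀ v, c * ‖v‖ ^ 2 - C ≤ Φ (w s, v) ∧
      ‖fderiv ℝ Φ (w s, v)‖ ≤ C * (1 + ‖v‖) ^ 4 ∧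
      ‖fderiv ℝ (fderiv ℝ Φ) (w s, v)‖ ≤ C * (1 + ‖v‖) ^ 4) :
    Wq S (fun s v => Φ (w s, v)) ∧ (∀ q, Pg S fun s v => fderiv ℝ Φ (w s, v) q) ∧
      ∀ q q', Pg S fun s v => fderiv ℝ (fderiv ℝ Φ) (w s, v) q q' := by
  refine ⟨⟨fun s h => (cont_fib (hs s h)).continuous, c, C, hc, fun s h v => (hb s h v).1⟩,
    fun q => ⟨fun s h => (cont_fib fun v => dir_sm (hs s h v) q).continuous, C * ‖q‖, 4,
      by positivity, fun s h v => ((fderiv ℝ Φ (w s, v)).le_opNorm q).trans ?_⟩,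
    fun q q' => ⟨fun s h => (((cont_fib fun v => fd_sm (fd_sm (hs s h v))).continuous.clm_apply
      continuous_const).clm_apply continuous_const), C * ‖q‖ * ‖q'‖, 4, by positivity,
      fun s h v => ((fderiv ℝ (fderiv ℝ Φ) (w s, v)).le_opNorm₂ q q').trans ?_⟩⟩
  · rw [mul_right_comm]
    exact mul_le_mul_of_nonneg_right (hb s h v).2.1 (norm_nonneg _)
  · rw [mul_right_comm (C * ‖q‖), mul_right_comm C]
    exact mul_le_mul_of_nonneg_right
      (mul_le_mul_of_nonneg_right (hb s h v).2.2 (norm_nonneg _)) (norm_nonneg _)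

end Pool.Agent.Lib.PM81
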